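import Pool.Agent.N418.CZ.Stm

/-!
# CZ/GR: growth of the dimension of the span of the permutation matrices
-/

set_option autoImplicit false

namespace Pool.Agent.N539.CZ.GR

open Module
open Pool.Agent.N418.CZ (Pi A S_GR)

open scoped InnerProductSpace

/-- Gram matrices: trace squared is at most the rank times the square norm -/
theorem gram {V S : Type} [NormedAddCommGroup V] [InnerProductSpace ℝ V] [FiniteDimensional ℝ V]
    [Fintype S] (v : S → V) :
    (∑ σ, ⟪v σ, v σ⟫_ℝ) ^ 2 ≤ (finrank ℝ (Submodule.span ℝ (Set.range v)) : ℝ) *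
      ∑ σ, ∑ τ, ⟪v σ, v τ⟫_ℝ ^ 2 := by
  obtain ⟨U, hU⟩ : ∃ U : Submodule ℝ V, U = Submodule.span ℝ (Set.range v) := ⟨_, rfl⟩
  have hv : ∀ σ, v σ ∈ U := fun σ => by
    rw [hU]
    exact Submodule.subset_span ⟨σ, rfl⟩
  rw [← hU]
  obtain ⟨b, -⟩ : ∃ b : OrthonormalBasis (Fin (finrank ℝ U)) ℝ U, True :=
    ⟨stdOrthonormalBasis ℝ U, trivial⟩
  obtain ⟨M, hM⟩ : ∃ M : S → Fin (finrank ℝ U) → ℝ, M = fun σ p => ⟪(⟨v σ, hv σ⟩ : U), b p⟫_ℝ :=
    ⟨_, rfl⟩
  have hin : ∀ σ τ, ⟪v σ, v τ⟫_ℝ = ∑ p, M σ p * M τ p := by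
    intro σ τ
    have h1 : ⟪v σ, v τ⟫_ℝ = ⟪(⟨v σ, hv σ⟩ : U), (⟨v τ, hv τ⟩ : U)⟫_ℝ := rfl
    rw [h1, ← b.sum_inner_mul_inner, hM]
    refine Finset.sum_congr rfl fun p _ => ?_
    simp only
    rw [real_inner_comm (b p) (⟨v τ, hv τ⟩ : U)]
  have h2 : ∑ σ, ⟪v σ, v σ⟫_ℝ = ∑ p, ∑ σ, M σ p * M σ p := by
    simp only [hin]
    exact Finset.sum_comm
  have h3 : (∑ p, ∑ σ, M σ p * M σ p) ^ 2 ≤ (finrank ℝ U : ℝ) *
      ∑ p, (∑ σ, M σ p * M σ p) ^ 2 := by
    have := sq_sum_le_card_mul_sum_sq (s := (Finset.univ : Finset (Fin (finrank ℝ U))))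
      (f := fun p => ∑ σ, M σ p * M σ p)
    simpa using this
  have h4 : ∑ p, (∑ σ, M σ p * M σ p) ^ 2 ≤ ∑ p, ∑ q, (∑ σ, M σ p * M σ q) ^ 2 := by
    refine Finset.sum_le_sum fun p _ => ?_
    exact Finset.single_le_sum (f := fun q => (∑ σ, M σ p * M σ q) ^ 2)
      (fun q _ => sq_nonneg _) (Finset.mem_univ p)
  have h5 : ∑ p, ∑ q, (∑ σ, M σ p * M σ q) ^ 2 = ∑ σ, ∑ τ, (∑ p, M σ p * M τ p) ^ 2 := by
    have e1 : ∀ p q, (∑ σ, M σ p * M σ q) ^ 2 = ∑ σ, ∑ τ, (M σ p * M σ q) * (M τ p * M τ q) := by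
      intro p q
      rw [sq, Finset.sum_mul_sum]
    have e2 : ∀ σ τ, (∑ p, M σ p * M τ p) ^ 2 = ∑ p, ∑ q, (M σ p * M τ p) * (M σ q * M τ q) := by
      intro σ τ
      rw [sq, Finset.sum_mul_sum]
    simp only [e1, e2]
    calc ∑ p, ∑ q, ∑ σ, ∑ τ, (M σ p * M σ q) * (M τ p * M τ q)
        = ∑ p, ∑ σ, ∑ q, ∑ τ, (M σ p * M σ q) * (M τ p * M τ q) :=
          Finset.sum_congr rfl fun p _ => Finset.sum_comm
      _ = ∑ σ, ∑ p, ∑ q, ∑ τ, (M σ p * M σ q) * (M τ p * M τ q) := Finset.sum_comm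
      _ = ∑ σ, ∑ p, ∑ τ, ∑ q, (M σ p * M σ q) * (M τ p * M τ q) :=
          Finset.sum_congr rfl fun σ _ => Finset.sum_congr rfl fun p _ => Finset.sum_comm
      _ = ∑ σ, ∑ τ, ∑ p, ∑ q, (M σ p * M σ q) * (M τ p * M τ q) :=
          Finset.sum_congr rfl fun σ _ => Finset.sum_comm
      _ = _ := by
          refine Finset.sum_congr rfl fun σ _ => Finset.sum_congr rfl fun τ _ =>
            Finset.sum_congr rfl fun p _ => Finset.sum_congr rfl fun q _ => ?_
          ring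
  simp only [hin] at *
  rw [h2]
  calc (∑ p, ∑ σ, M σ p * M σ p) ^ 2 ≤ (finrank ℝ U : ℝ) * ∑ p, (∑ σ, M σ p * M σ p) ^ 2 := h3
    _ ≤ (finrank ℝ U : ℝ) * ∑ p, ∑ q, (∑ σ, M σ p * M σ q) ^ 2 :=
        mul_le_mul_of_nonneg_left h4 (Nat.cast_nonneg _)
    _ = _ := by rw [h5]

/-- matrices as vectors -/
noncomputable def vec (J : Type) [Fintype J] : Matrix J J ℝ →ₗ[ℝ] EuclideanSpace ℝ (J × J) where
  toFun M := WithLp.toLp 2 fun p => M p.1 p.2
  map_add' a b := by ext p; simp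
  map_smul' c a := by ext p; simp

theorem vec_inj (J : Type) [Fintype J] : Function.Injective (vec J) := by
  intro a b h
  ext i j
  have := congrArg (fun v : EuclideanSpace ℝ (J × J) => v (i, j)) h
  simpa [vec] using this

/-- the number of `a` with `a ∘ σ = a ∘ τ` -/
noncomputable def F (k n : ℕ) (σ τ : Equiv.Perm (Fin n)) : ℕ :=
  (Finset.univ.filter fun a : Fin n → Fin k => (fun i => a (σ i)) = fun i => a (τ i)).card

theorem inner_Pi (k n : ℕ) (σ τ : Equiv.Perm (Fin n)) :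
    ⟪vec _ (Pi (k := k) σ), vec _ (Pi (k := k) τ)⟫_ℝ = F k n σ τ := by
  classical
  rw [PiLp.inner_apply, Fintype.sum_prod_type]
  unfold F
  rw [Finset.card_filter, Nat.cast_sum]
  refine Finset.sum_congr rfl fun a _ => ?_
  have h1 : ∀ b : Fin n → Fin k, ⟪(vec _ (Pi (k := k) σ) : EuclideanSpace ℝ _) (a, b),
      (vec _ (Pi (k := k) τ) : EuclideanSpace ℝ _) (a, b)⟫_ℝ =
      if b = (fun i => a (σ i)) then (if (fun i => a (σ i)) = fun i => a (τ i) then 1 else 0)
        else 0 := by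
    intro b
    simp only [vec, Pi, LinearMap.coe_mk, AddHom.coe_mk, Matrix.of_apply, RCLike.inner_apply,
      conj_trivial]
    by_cases hb : b = fun i => a (σ i)
    · subst hb
      simp
    · simp [hb]
  simp only [h1]
  rw [Finset.sum_ite_eq' Finset.univ (fun i => a (σ i)), if_pos (Finset.mem_univ _)]
  push_cast
  rfl

theorem exists_perm {n : ℕ} {Y : Type} [DecidableEq Y] (c c0 : Fin n → Y)
    (h : ∀ y, Fintype.card {x // c x = y} = Fintype.card {x // c0 x = y}) :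
    ∃ g : Equiv.Perm (Fin n), ∀ x, c0 (g x) = c x := by
  have e : ∀ y, {x // c x = y} ≃ {x // c0 x = y} := fun y => Fintype.equivOfCardEq (h y)
  refine ⟨(Equiv.sigmaFiberEquiv c).symm.trans ((Equiv.sigmaCongrRight fun y => e y).trans
    (Equiv.sigmaFiberEquiv c0)), fun x => ?_⟩
  simp only [Equiv.trans_apply, Equiv.sigmaFiberEquiv, Equiv.coe_fn_symm_mk, Equiv.coe_fn_mk,
    Equiv.sigmaCongrRight_apply]
  exact (e (c x) ⟨x, rfl⟩).2

theorem count_le {n : ℕ} {Y : Type} [Fintype Y] [DecidableEq Y] (τ : Equiv.Perm (Fin n)) :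
    (Finset.univ.filter fun p : Equiv.Perm (Fin n) × (Fin n → Y) =>
      (fun i => p.2 (p.1 i)) = fun i => p.2 (τ i)).card ≤
      n.factorial * (n + 1) ^ (Fintype.card Y) := by
  classical
  obtain ⟨cnt, hcnt⟩ : ∃ cnt : (Fin n → Y) → (Y → Fin (n + 1)), ∀ c y,
      (cnt c y : ℕ) = Fintype.card {x // c x = y} :=
    ⟨fun c y => ⟨Fintype.card {x // c x = y}, by
      have := Fintype.card_subtype_le (fun x : Fin n => c x = y)
      rw [Fintype.card_fin] at this
      omega⟩, fun c y => rfl⟩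
  -- representatives
  have hr : ∃ rep : (Y → Fin (n + 1)) → (Fin n → Y) → (Fin n → Y), ∀ c d, cnt c = cnt d →
      rep (cnt c) c = rep (cnt d) d ∧ cnt (rep (cnt c) c) = cnt c := by
    refine ⟨fun h c => if hh : ∃ c0, cnt c0 = h then hh.choose else c, fun c d hcd => ?_⟩
    have h1 : ∃ c0, cnt c0 = cnt c := ⟨c, rfl⟩
    have h2 : ∃ c0, cnt c0 = cnt d := ⟨d, rfl⟩
    simp only [dif_pos h1, dif_pos h2]
    refine ⟨?_, h1.choose_spec⟩
    congr 1
    rw [hcd]
  obtain ⟨rep, hrep⟩ := hr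
  have hg : ∀ c : Fin n → Y, ∃ g : Equiv.Perm (Fin n), ∀ x, rep (cnt c) c (g x) = c x := by
    intro c
    refine exists_perm c _ fun y => ?_
    rw [← hcnt, ← hcnt, (hrep c c rfl).2]
  choose g hg using hg
  have hinj : Set.InjOn (fun p : Equiv.Perm (Fin n) × (Fin n → Y) => (g p.2 * p.1, cnt p.2))
      ((Finset.univ.filter fun p : Equiv.Perm (Fin n) × (Fin n → Y) =>
      (fun i => p.2 (p.1 i)) = fun i => p.2 (τ i) : Finset _) : Set _) := by
    rintro ⟨σ, c⟩ h1 ⟨σ', c'⟩ h2 h3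
    simp only [Finset.coe_filter, Finset.mem_univ, true_and, Set.mem_ofPred_eq] at h1 h2
    simp only [Prod.mk.injEq] at h3
    obtain ⟨h3, h4⟩ := h3
    have h5 : c = c' := by
      funext x
      have e1 : ∀ i, c (τ i) = c' (τ i) := by
        intro i
        have f1 := congrFun h1 i
        have f2 := congrFun h2 i
        rw [← f1, ← f2, ← hg c, ← hg c', ← (hrep c c' h4).1]
        have f3 := congrArg (fun s : Equiv.Perm (Fin n) => s i) h3
        simp only [Equiv.Perm.mul_apply] at f3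
        rw [f3]
      have := e1 (τ.symm x)
      simpa using this
    subst h5
    have h6 : σ = σ' := mul_left_cancel h3
    rw [h6]
  calc _ ≤ (Finset.univ : Finset (Equiv.Perm (Fin n) × (Y → Fin (n + 1)))).card :=
        Finset.card_le_card_of_injOn _ (fun _ _ => Finset.mem_univ _) hinj
    _ = _ := by
        rw [Finset.card_univ, Fintype.card_prod, Fintype.card_perm, Fintype.card_fin,
          Fintype.card_fun, Fintype.card_fin]

theorem sum_F (k n : ℕ) (τ : Equiv.Perm (Fin n)) :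
    ∑ σ, F k n σ τ ^ 2 ≤ n.factorial * (n + 1) ^ (k * k) := by
  classical
  have h1 := count_le (n := n) (Y := Fin k × Fin k) τ
  rw [Fintype.card_prod, Fintype.card_fin] at h1
  refine le_trans (le_of_eq ?_) h1
  rw [Finset.card_filter, Fintype.sum_prod_type]
  refine Finset.sum_congr rfl fun σ _ => ?_
  unfold F
  rw [sq, ← Finset.card_product, ← Finset.card_filter]
  refine Finset.card_bij (fun p _ i => (p.1 i, p.2 i)) ?_ ?_ ?_
  · rintro ⟨a, b⟩ h
    simp only [Finset.mem_product, Finset.mem_filter, Finset.mem_univ, true_and] at h ⊢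
    funext i
    have e1 := congrFun h.1 i
    have e2 := congrFun h.2 i
    rw [e1, e2]
  · rintro ⟨a, b⟩ _ ⟨a', b'⟩ _ h
    refine Prod.ext ?_ ?_
    · funext i
      exact congrArg Prod.fst (congrFun h i)
    · funext i
      exact congrArg Prod.snd (congrFun h i)
  · intro c hc
    simp only [Finset.mem_filter, Finset.mem_univ, true_and] at hc
    refine ⟨(fun i => (c i).1, fun i => (c i).2), ?_, rfl⟩
    simp only [Finset.mem_product, Finset.mem_filter, Finset.mem_univ, true_and]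
    exact ⟨funext fun i => congrArg Prod.fst (congrFun hc i),
      funext fun i => congrArg Prod.snd (congrFun hc i)⟩

/-- (GR) -/
theorem t_GR : Pool.Agent.N418.CZ.S_GR := by
  intro k n hk
  have hfr : finrank ℝ (Submodule.span ℝ (Set.range fun σ : Equiv.Perm (Fin n) =>
      vec _ (Pi (k := k) σ))) = finrank ℝ (A k n) := by
    have h1 : Submodule.span ℝ (Set.range fun σ : Equiv.Perm (Fin n) => vec _ (Pi (k := k) σ)) =
        (A k n).map (vec _) := by
      unfold A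
      rw [Submodule.map_span, ← Set.range_comp]
      rfl
    rw [h1]
    exact (LinearEquiv.finrank_eq (Submodule.equivMapOfInjective (vec _) (vec_inj _) (A k n))).symm
  constructor
  · have h1 := gram (V := EuclideanSpace ℝ ((Fin n → Fin k) × (Fin n → Fin k)))
      (fun σ : Equiv.Perm (Fin n) => vec _ (Pi (k := k) σ))
    rw [hfr] at h1
    simp only [inner_Pi] at h1
    have h2 : ∀ σ : Equiv.Perm (Fin n), F k n σ σ = k ^ n := by
      intro σ
      unfold F
      simp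
    simp only [h2, Finset.sum_const, Finset.card_univ, Fintype.card_perm, Fintype.card_fin,
      nsmul_eq_mul] at h1
    have h3 : ∑ σ, ∑ τ, F k n σ τ ^ 2 ≤ n.factorial * (n.factorial * (n + 1) ^ (k * k)) := by
      rw [Finset.sum_comm]
      calc ∑ τ, ∑ σ, F k n σ τ ^ 2 ≤ ∑ τ : Equiv.Perm (Fin n), n.factorial * (n + 1) ^ (k * k) :=
            Finset.sum_le_sum fun τ _ => sum_F k n τ
        _ = _ := by
            rw [Finset.sum_const, Finset.card_univ, Fintype.card_perm, Fintype.card_fin, smul_eq_mul]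
    have h4 : (n.factorial * k ^ n) ^ 2 ≤ finrank ℝ (A k n) * ∑ σ, ∑ τ, F k n σ τ ^ 2 := by
      exact_mod_cast h1
    have h5 := h4.trans (Nat.mul_le_mul_left _ h3)
    have h6 : 0 < n.factorial ^ 2 := pow_pos (Nat.factorial_pos n) 2
    refine Nat.le_of_mul_le_mul_left ?_ h6
    calc n.factorial ^ 2 * k ^ (2 * n) = (n.factorial * k ^ n) ^ 2 := by
          rw [mul_pow, ← pow_mul, mul_comm n 2]
      _ ≤ _ := h5
      _ = _ := by ring
  · have h1 := Submodule.finrank_le (A k n)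
    rw [Module.finrank_matrix, Module.finrank_self, Fintype.card_fun, Fintype.card_fin,
      Fintype.card_fin, mul_one] at h1
    refine h1.trans (le_of_eq ?_)
    rw [two_mul, pow_add]

end Pool.Agent.N539.CZ.GR
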