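import Pool.Agent.N418.CZ.Stm

/-!
# CZ/RAT: ratios of a log-convex sequence
-/

set_option autoImplicit false

namespace Pool.Agent.N539.CZ

open Pool.Agent.N418.CZ

/-- (RAT) -/
theorem t_RAT : Pool.Agent.N418.CZ.S_RAT := by
  intro t q m hq ht hlc hlow hup
  have hq0 : 0 < q := by linarith
  obtain ⟨R, hR⟩ : ∃ R : ℕ → ℝ, R = fun n => t (n + 1) / t n := ⟨_, rfl⟩
  have hRpos : ∀ n, 0 < R n := fun n => by rw [hR]; exact div_pos (ht _) (ht _)
  have hRt : ∀ n, t (n + 1) = R n * t n := fun n => by
    rw [hR]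
    simp only
    rw [div_mul_cancel₀ _ (ht n).ne']
  have hmono : Monotone R := by
    refine monotone_nat_of_le_succ fun n => ?_
    rw [hR]
    simp only
    rw [div_le_div_iff₀ (ht _) (ht _)]
    have := hlc n
    nlinarith
  have hRq : ∀ n, R n ≤ q := by
    intro N
    by_contra hcon
    rw [not_le] at hcon
    have h1 : ∀ j, t N * R N ^ j ≤ t (N + j) := by
      intro j
      induction j with
      | zero => simp
      | succ j ih =>
        have h2 : t (N + (j + 1)) = R (N + j) * t (N + j) := hRt (N + j)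
        rw [h2, pow_succ]
        have h3 := hmono (Nat.le_add_right N j)
        calc t N * (R N ^ j * R N) = R N * (t N * R N ^ j) := by ring
          _ ≤ R (N + j) * t (N + j) := mul_le_mul h3 ih (mul_nonneg (ht N).le (pow_nonneg (hRpos N).le _))
              (hRpos _).le
    obtain ⟨j, hj⟩ := pow_unbounded_of_one_lt (q ^ N / t N) ((one_lt_div hq0).2 hcon)
    have h4 := (h1 j).trans (hup (N + j))
    rw [div_pow, div_lt_div_iff₀ (ht N) (by positivity)] at hj
    rw [pow_add] at h4
    linarith
  have hex : ∀ ρ, 0 < ρ → ρ < q → ∃ n, ρ < R n := by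
    intro ρ hρ hρq
    by_contra hcon
    push Not at hcon
    have h1 : ∀ n, t n ≤ t 0 * ρ ^ n := by
      intro n
      induction n with
      | zero => simp
      | succ n ih =>
        rw [hRt n, pow_succ]
        calc R n * t n ≤ ρ * (t 0 * ρ ^ n) := mul_le_mul (hcon n) ih (ht n).le hρ.le
          _ = _ := by ring
    have hr : 1 < q / ρ := (one_lt_div hρ).2 hρq
    have h2 := (tendsto_pow_const_div_const_pow_of_one_lt m hr).comp (Filter.tendsto_add_atTop_nat 1)
    have h3 : ∀ n : ℕ, 1 / (q / ρ * t 0) ≤ (((n + 1 : ℕ) : ℝ)) ^ m / (q / ρ) ^ (n + 1) := by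
      intro n
      have h4 : q ^ n ≤ ((n : ℝ) + 1) ^ m * (t 0 * ρ ^ n) :=
        (hlow n).trans (mul_le_mul_of_nonneg_left (h1 n) (by positivity))
      have h5 : (q / ρ) ^ n ≤ ((n : ℝ) + 1) ^ m * t 0 := by
        rw [div_pow, div_le_iff₀ (by positivity)]
        linarith
      have ht0 := ht 0
      rw [div_le_div_iff₀ (by positivity) (by positivity), one_mul, pow_succ]
      push_cast
      have h6 := mul_le_mul_of_nonneg_right h5 (by positivity : 0 ≤ q / ρ)
      linarith
    have h7 : 1 / (q / ρ * t 0) ≤ 0 :=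
      ge_of_tendsto h2 (Filter.Eventually.of_forall h3)
    have ht0 := ht 0
    have h8 : 0 < 1 / (q / ρ * t 0) := by positivity
    linarith
  have hlim : Filter.Tendsto R Filter.atTop (nhds q) := by
    rw [tendsto_order]
    constructor
    · intro ρ hρ
      rcases le_or_gt ρ 0 with h0 | h0
      · exact Filter.Eventually.of_forall fun n => h0.trans_lt (hRpos n)
      · obtain ⟨n, hn⟩ := hex ρ h0 hρ
        filter_upwards [Filter.eventually_ge_atTop n] with k hk
        exact hn.trans_le (hmono hk)
    · intro ρ hρ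
      exact Filter.Eventually.of_forall fun n => (hRq n).trans_lt hρ
  have h9 := hlim.inv₀ hq0.ne'
  rw [one_div]
  refine h9.congr fun n => ?_
  rw [hR]
  simp only
  rw [inv_div]

end Pool.Agent.N539.CZ
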